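import Pool.Agent.Lib.MP_2543de_nt.Lower

namespace Pool.Agent.MP_2543de_nt

open Finset Filter

lemma S_est {z : ℕ} {δ L : ℝ} (hz2 : 2 ≤ z) (hδ : 0 < δ) (hL : 1 ≤ L) (hzr : δ / 2 * L ≤ z)
    (hlogz : 2000 * Real.log 4 / δ ≤ Real.log z) (Y : ℕ) : (5 + 9 * L) * S z Y ≤ 1 / 4 := by
  have hl4 : 0 < Real.log 4 := Real.log_pos (by norm_num)
  have hS := S_le hz2 Y
  have hlogz0 : 0 < Real.log z := lt_of_lt_of_le (by positivity) hlogz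
  have e1 : S z Y ≤ 4 * Real.log 4 / ((δ / 2 * L) * (2000 * Real.log 4 / δ)) := by
    refine hS.trans ?_
    apply div_le_div_of_nonneg_left (by positivity) (by positivity)
    exact mul_le_mul hzr hlogz (by positivity) (le_trans (by positivity) hzr)
  have e2 : 4 * Real.log 4 / ((δ / 2 * L) * (2000 * Real.log 4 / δ)) = 1 / (250 * L) := by
    have hL0 : L ≠ 0 := by positivity
    field_simp
    norm_num
  rw [e2] at e1
  calc (5 + 9 * L) * S z Y ≤ (14 * L) * (1 / (250 * L)) := by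
        apply mul_le_mul (by linarith) e1 (S_nonneg z Y) (by positivity)
    _ = 14 / 250 := by
        have hL0 : L ≠ 0 := by positivity
        field_simp
    _ ≤ 1 / 4 := by norm_num

lemma YK_est {n D K Y L : ℝ} (hn0 : 0 < n) (hD0 : 0 < D)
    (hD : D ≤ 9 * n ^ (1 / 8 : ℝ)) (hK : n ^ 2 / D ≤ K) (hL1 : 1 ≤ L) (hY0 : 0 ≤ Y)
    (hL : L ≤ n ^ (1 / 8 : ℝ)) (hY : Y ≤ 4 * n ^ (3 / 2 : ℝ)) (h4 : 5000 ≤ n ^ (1 / 4 : ℝ)) :
    (5 + 9 * L) * Y ≤ 1 / 4 * K := by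
  have e1 : n ^ 2 / (9 * n ^ (1 / 8 : ℝ)) ≤ n ^ 2 / D :=
    div_le_div_of_nonneg_left (by positivity) hD0 hD
  have e2 : (5 + 9 * L) * Y ≤ (14 * n ^ (1 / 8 : ℝ)) * (4 * n ^ (3 / 2 : ℝ)) :=
    mul_le_mul (by linarith) hY hY0 (by positivity)
  have e3 : n ^ 2 = n ^ (1 / 8 : ℝ) * n ^ (1 / 8 : ℝ) * n ^ (3 / 2 : ℝ) * n ^ (1 / 4 : ℝ) := by
    rw [← Real.rpow_add hn0, ← Real.rpow_add hn0, ← Real.rpow_add hn0, ← Real.rpow_natCast]
    norm_num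
  have e4 : n ^ 2 / (9 * n ^ (1 / 8 : ℝ)) =
      n ^ (1 / 8 : ℝ) * n ^ (3 / 2 : ℝ) * n ^ (1 / 4 : ℝ) / 9 := by
    rw [e3]
    have : n ^ (1 / 8 : ℝ) ≠ 0 := by positivity
    field_simp
  have e5 : (0 : ℝ) < n ^ (1 / 8 : ℝ) * n ^ (3 / 2 : ℝ) := by positivity
  have e6 : n ^ (1 / 8 : ℝ) * n ^ (3 / 2 : ℝ) * 5000 / 9 ≤
      n ^ (1 / 8 : ℝ) * n ^ (3 / 2 : ℝ) * n ^ (1 / 4 : ℝ) / 9 := by
    apply div_le_div_of_nonneg_right _ (by norm_num)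
    exact mul_le_mul_of_nonneg_left h4 e5.le
  have e7 : 14 * n ^ (1 / 8 : ℝ) * (4 * n ^ (3 / 2 : ℝ)) =
      56 * (n ^ (1 / 8 : ℝ) * n ^ (3 / 2 : ℝ)) := by ring
  rw [e7] at e2
  have e8 : n ^ (1 / 8 : ℝ) * n ^ (3 / 2 : ℝ) * 5000 / 9 ≤ K :=
    e6.trans (e4 ▸ (e1.trans hK))
  linarith

lemma K_est {n D K : ℕ} (hD : 9 ≤ D) (hDn : D ≤ n)
    (hK : K = (3 * n ^ 2 + 3 * n - D - 2) / (2 * D)) : (n : ℝ) ^ 2 / D ≤ K := by
  have hDpos : (0 : ℝ) < D := by exact_mod_cast (by omega : 0 < D)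
  rw [div_le_iff₀ hDpos]
  have e1 : 3 * n ^ 2 + 3 * n - D - 2 < 2 * D * (K + 1) := by
    rw [hK]
    exact Nat.lt_mul_div_succ (3 * n ^ 2 + 3 * n - D - 2) (show 0 < 2 * D by omega)
  have e2 : 3 * n ^ 2 + 3 * n < 2 * D * (K + 1) + D + 2 := by omega
  have e3 : (3 * (n : ℝ) ^ 2 + 3 * n) < 2 * D * (K + 1) + D + 2 := by exact_mod_cast e2
  have e4 : (D : ℝ) ≤ n := by exact_mod_cast hDn
  have e5 : (9 : ℝ) ≤ D := by exact_mod_cast hD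
  nlinarith

lemma Y_exists {n : ℕ} (hn : 100 ≤ n) : ∃ Y : ℕ, 1 ≤ Y ∧ (n + 1) ^ 3 ≤ Y ^ 2 ∧
    (Y : ℝ) ≤ 4 * (n : ℝ) ^ (3 / 2 : ℝ) ∧ Real.log Y ≤ 3 * Real.log n := by
  have hnr : (100 : ℝ) ≤ n := by exact_mod_cast hn
  have hn0 : (0 : ℝ) < n := by linarith
  refine ⟨⌈((n : ℝ) + 1) ^ (3 / 2 : ℝ)⌉₊, ?_⟩
  set Y := ⌈((n : ℝ) + 1) ^ (3 / 2 : ℝ)⌉₊ with hYdef
  have hYlow : ((n : ℝ) + 1) ^ (3 / 2 : ℝ) ≤ Y := Nat.le_ceil _
  have hYsq : (n + 1) ^ 3 ≤ Y ^ 2 := by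
    have : (((n : ℝ) + 1) ^ (3 / 2 : ℝ)) ^ 2 ≤ (Y : ℝ) ^ 2 :=
      pow_le_pow_left₀ (by positivity) hYlow 2
    have e : (((n : ℝ) + 1) ^ (3 / 2 : ℝ)) ^ 2 = ((n : ℝ) + 1) ^ 3 := by
      rw [← Real.rpow_natCast, ← Real.rpow_mul (by positivity), ← Real.rpow_natCast]
      norm_num
    rw [e] at this
    exact_mod_cast this
  have hY1r : (1 : ℝ) ≤ ((n : ℝ) + 1) ^ (3 / 2 : ℝ) :=
    Real.one_le_rpow (by linarith) (by norm_num)
  have hY1 : 1 ≤ Y := by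
    have : (1 : ℝ) ≤ Y := hY1r.trans hYlow
    exact_mod_cast this
  have hYup : (Y : ℝ) ≤ 4 * (n : ℝ) ^ (3 / 2 : ℝ) := by
    have e1 : (Y : ℝ) < ((n : ℝ) + 1) ^ (3 / 2 : ℝ) + 1 := Nat.ceil_lt_add_one (by positivity)
    have e2 : ((n : ℝ) + 1) ^ (3 / 2 : ℝ) ≤ (2 * (n : ℝ)) ^ (3 / 2 : ℝ) :=
      Real.rpow_le_rpow (by positivity) (by linarith) (by norm_num)
    have e3 : (2 * (n : ℝ)) ^ (3 / 2 : ℝ) = 2 ^ (3 / 2 : ℝ) * (n : ℝ) ^ (3 / 2 : ℝ) :=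
      Real.mul_rpow (by norm_num) hn0.le
    have e4 : (2 : ℝ) ^ (3 / 2 : ℝ) ≤ 3 := by
      have : (2 : ℝ) ^ (3 / 2 : ℝ) = Real.sqrt 8 := by
        rw [Real.sqrt_eq_rpow, show (8 : ℝ) = 2 ^ (3 : ℝ) by norm_num, ← Real.rpow_mul (by norm_num)]
        norm_num
      rw [this, Real.sqrt_le_left (by norm_num)]
      norm_num
    have e5 : (1 : ℝ) ≤ (n : ℝ) ^ (3 / 2 : ℝ) := Real.one_le_rpow (by linarith) (by norm_num)
    nlinarith
  have hYr0 : (0 : ℝ) < Y := by exact_mod_cast hY1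
  refine ⟨hY1, hYsq, hYup, ?_⟩
  have e1 : Real.log Y ≤ Real.log (4 * (n : ℝ) ^ (3 / 2 : ℝ)) := Real.log_le_log hYr0 hYup
  rw [Real.log_mul (by norm_num) (by positivity), Real.log_rpow hn0] at e1
  have e2 : Real.log 4 ≤ 3 / 2 := by
    have : Real.log 4 = 2 * Real.log 2 := by
      rw [show (4 : ℝ) = 2 ^ 2 by norm_num, Real.log_pow]; norm_num
    have := Real.log_two_lt_d9
    linarith
  have e3 : 1 ≤ Real.log n := by
    rw [Real.le_log_iff_exp_le hn0]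
    have := Real.exp_one_lt_d9
    linarith
  linarith

lemma eventually_lower {η : ℝ} (hη : 0 < η) (hη8 : η ≤ 1 / 8) :
    ∀ᶠ n : ℕ in atTop, (n : ℝ) ^ (2 - η) / 18 ≤ cousinCount n := by
  have hl4 : 0 < Real.log 4 := Real.log_pos (by norm_num)
  obtain ⟨δ, hδpos, hδ4⟩ : ∃ δ : ℝ, 0 < δ ∧ δ * Real.log 4 = η :=
    ⟨η / Real.log 4, div_pos hη hl4, by field_simp⟩
  have tn : Tendsto (fun n : ℕ => (n : ℝ)) atTop atTop := tendsto_natCast_atTop_atTop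
  have tlog : Tendsto (fun n : ℕ => Real.log n) atTop atTop := Real.tendsto_log_atTop.comp tn
  -- eventual facts
  have ev1 : ∀ᶠ n : ℕ in atTop, (4 : ℝ) ≤ δ * Real.log n :=
    (tlog.const_mul_atTop hδpos).eventually_ge_atTop 4
  have ev2 : ∀ᶠ n : ℕ in atTop, (2000 * Real.log 4 / δ) ≤ Real.log (δ / 2 * Real.log n) := by
    have : Tendsto (fun n : ℕ => Real.log (δ / 2 * Real.log n)) atTop atTop :=
      Real.tendsto_log_atTop.comp (tlog.const_mul_atTop (by positivity))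
    exact this.eventually_ge_atTop _
  have ev3 : ∀ᶠ n : ℕ in atTop, Real.log n ≤ (n : ℝ) ^ (1 / 8 : ℝ) := by
    have h := (isLittleO_log_rpow_atTop (r := 1 / 8) (by norm_num)).bound (c := 1) one_pos
    have h2 := tn.eventually h
    filter_upwards [h2, eventually_ge_atTop 1] with n hn hn1
    have hn1' : (1 : ℝ) ≤ n := by exact_mod_cast hn1
    rw [one_mul, Real.norm_of_nonneg (Real.log_nonneg hn1'),
      Real.norm_of_nonneg (by positivity)] at hn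
    exact hn
  have ev4 : ∀ᶠ n : ℕ in atTop, (5000 : ℝ) ≤ (n : ℝ) ^ (1 / 4 : ℝ) :=
    ((tendsto_rpow_atTop (by norm_num)).comp tn).eventually_ge_atTop _
  have ev5 : ∀ᶠ n : ℕ in atTop, (1 : ℝ) ≤ Real.log n := tlog.eventually_ge_atTop 1
  filter_upwards [ev1, ev2, ev3, ev4, ev5, eventually_ge_atTop 100] with n h1 h2 h3 h4 h5 hn
  have hnr : (100 : ℝ) ≤ n := by exact_mod_cast hn
  have hn0 : (0 : ℝ) < n := by linarith
  obtain ⟨L, hL⟩ : ∃ L : ℝ, L = Real.log n := ⟨_, rfl⟩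
  rw [← hL] at h1 h2 h3 h5
  obtain ⟨z, hz⟩ : ∃ z : ℕ, z = ⌊δ * L⌋₊ := ⟨_, rfl⟩
  have hzle : (z : ℝ) ≤ δ * L := by rw [hz]; exact Nat.floor_le (by linarith)
  have hzge : δ * L < z + 1 := by rw [hz]; exact Nat.lt_floor_add_one _
  have hz2 : 2 ≤ z := by
    have : (2 : ℝ) < z + 1 := by linarith
    have : (2 : ℕ) < z + 1 := by exact_mod_cast this
    omega
  have hzr : δ / 2 * L ≤ z := by linarith
  have hz0 : (0 : ℝ) < z := by positivity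
  -- modulus bound
  obtain ⟨D, hD⟩ : ∃ D : ℕ, D = Dz z := ⟨_, rfl⟩
  have hD9 : 9 ≤ D := hD ▸ Dz_pos z
  have hDr : (D : ℝ) ≤ 9 * (n : ℝ) ^ η := by
    have h6 : (D : ℝ) ≤ 9 * (4 : ℝ) ^ z := by rw [hD]; exact_mod_cast Dz_le z
    have h7 : (4 : ℝ) ^ z ≤ (n : ℝ) ^ η := by
      rw [← Real.rpow_natCast, Real.rpow_def_of_pos (by norm_num : (0 : ℝ) < 4),
        Real.rpow_def_of_pos hn0]
      apply Real.exp_le_exp.2
      calc Real.log 4 * z ≤ Real.log 4 * (δ * L) := by gcongr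
        _ = L * (δ * Real.log 4) := by ring
        _ = Real.log n * η := by rw [hδ4, hL]
    linarith
  have hDpos : (0 : ℝ) < D := by exact_mod_cast (by omega : 0 < D)
  have hn18 : (n : ℝ) ^ η ≤ (n : ℝ) ^ (1 / 8 : ℝ) :=
    Real.rpow_le_rpow_of_exponent_le (by linarith) hη8
  have hD18 : (D : ℝ) ≤ 9 * (n : ℝ) ^ (1 / 8 : ℝ) := by linarith
  have hquarter : (n : ℝ) = (n : ℝ) ^ (1 / 4 : ℝ) * (n : ℝ) ^ (3 / 4 : ℝ) := by
    rw [← Real.rpow_add hn0]; norm_num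
  have h18 : (n : ℝ) ^ (1 / 8 : ℝ) ≤ (n : ℝ) ^ (3 / 4 : ℝ) :=
    Real.rpow_le_rpow_of_exponent_le (by linarith) (by norm_num)
  have hD_le_n : (D : ℝ) ≤ n := by
    rw [hquarter]
    have : (0 : ℝ) ≤ (n : ℝ) ^ (3 / 4 : ℝ) := by positivity
    nlinarith
  have hDn : D ≤ n := by exact_mod_cast hD_le_n
  -- K
  obtain ⟨K, hK⟩ : ∃ K : ℕ, K = (3 * n ^ 2 + 3 * n - D - 2) / (2 * D) := ⟨_, rfl⟩
  have hKge : (n : ℝ) ^ 2 / D ≤ K := K_est hD9 hDn hK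
  have hKpos : (0 : ℝ) < K := lt_of_lt_of_le (by positivity) hKge
  -- Y
  obtain ⟨Y, hY1, hYsq, hYup, hlogY⟩ := Y_exists hn
  rw [← hL] at hlogY
  have hYr0 : (0 : ℝ) ≤ Y := Nat.cast_nonneg Y
  -- main estimates
  have hlow := lower n z Y hY1 hYsq
  rw [← hD, ← hK] at hlow
  have hlogz : 2000 * Real.log 4 / δ ≤ Real.log z :=
    h2.trans (Real.log_le_log (by positivity) hzr)
  have hS' : (5 + 9 * L) * S z Y ≤ 1 / 4 := S_est hz2 hδpos h5 hzr hlogz Y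
  have hYK : (5 + 9 * L) * Y ≤ 1 / 4 * K := YK_est hn0 hDpos hD18 hKge h5 hYr0 h3 hYup h4
  have hS0 := S_nonneg z Y
  have hfin : (K : ℝ) / 2 ≤ cousinCount n := by
    have e9 : 0 ≤ K * S z Y + Y := by positivity
    have e0 : 2 * ((5 / 2 + 3 / 2 * Real.log Y) * (K * S z Y + Y)) ≤
        (5 + 9 * L) * (K * S z Y + Y) := by
      have : 2 * (5 / 2 + 3 / 2 * Real.log Y) ≤ 5 + 9 * L := by linarith
      calc 2 * ((5 / 2 + 3 / 2 * Real.log Y) * (K * S z Y + Y)) =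
            (2 * (5 / 2 + 3 / 2 * Real.log Y)) * (K * S z Y + Y) := by ring
        _ ≤ _ := mul_le_mul_of_nonneg_right this e9
    have e1 : (5 + 9 * L) * (K * S z Y + Y) ≤ K / 2 := by
      have e2 : (5 + 9 * L) * (K * S z Y + Y) = K * ((5 + 9 * L) * S z Y) + (5 + 9 * L) * Y := by
        ring
      have e3 : K * ((5 + 9 * L) * S z Y) ≤ K * (1 / 4) :=
        mul_le_mul_of_nonneg_left hS' hKpos.le
      rw [e2]
      linarith
    linarith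
  refine le_trans ?_ hfin
  have e1 : (n : ℝ) ^ (2 - η) / 9 ≤ K := by
    refine le_trans ?_ hKge
    rw [Real.rpow_sub hn0, div_div]
    rw [show ((n : ℝ) ^ (2 : ℝ)) = (n : ℝ) ^ 2 by rw [← Real.rpow_natCast]; norm_num]
    have : (D : ℝ) ≤ (n : ℝ) ^ η * 9 := by linarith
    exact div_le_div_of_nonneg_left (by positivity) hDpos this
  linarith

/-- Quantitative lower bound for the number of cousin cyclic pairs between consecutive cubes. -/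
theorem rpow_le_cousinCount {ε : ℝ} (hε : 0 < ε) :
    ∀ᶠ n : ℕ in atTop, (n : ℝ) ^ (2 - ε) ≤ cousinCount n := by
  obtain ⟨η, hη0, hη8, hηε⟩ : ∃ η : ℝ, 0 < η ∧ η ≤ 1 / 8 ∧ η ≤ ε / 2 :=
    ⟨min (ε / 2) (1 / 8), lt_min (by positivity) (by norm_num), min_le_right _ _, min_le_left _ _⟩
  have tn : Tendsto (fun n : ℕ => (n : ℝ)) atTop atTop := tendsto_natCast_atTop_atTop
  have ev : ∀ᶠ n : ℕ in atTop, (18 : ℝ) ≤ (n : ℝ) ^ (ε / 2) :=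
    ((tendsto_rpow_atTop (by positivity)).comp tn).eventually_ge_atTop _
  filter_upwards [eventually_lower hη0 hη8, ev, eventually_ge_atTop 1] with n h1 h2 h3
  have hn0 : (0 : ℝ) < n := by exact_mod_cast h3
  have hn1 : (1 : ℝ) ≤ n := by exact_mod_cast h3
  refine le_trans ?_ h1
  rw [le_div_iff₀ (by norm_num)]
  calc (n : ℝ) ^ (2 - ε) * 18 ≤ (n : ℝ) ^ (2 - ε) * (n : ℝ) ^ (ε / 2) := by gcongr
    _ = (n : ℝ) ^ (2 - ε / 2) := by rw [← Real.rpow_add hn0]; ring_nf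
    _ ≤ (n : ℝ) ^ (2 - η) := Real.rpow_le_rpow_of_exponent_le hn1 (by linarith)

theorem tendsto_cousinCount : Tendsto cousinCount atTop atTop := by
  have h := rpow_le_cousinCount (ε := 1) one_pos
  have tn : Tendsto (fun n : ℕ => (n : ℝ)) atTop atTop := tendsto_natCast_atTop_atTop
  rw [← tendsto_natCast_atTop_iff (R := ℝ)]
  refine tendsto_atTop_mono' atTop ?_ tn
  filter_upwards [h] with n hn
  simpa [show (2 - 1 : ℝ) = 1 by norm_num] using hn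

end Pool.Agent.MP_2543de_nt
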