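import Pool.Agent.Lib.MP_2543de_nt.Basic

namespace Pool.Agent.MP_2543de_nt

open Finset

lemma modEq_of_linear {D e d x y : ℕ} (hd : Nat.Coprime d (2 * D))
    (h : 2 * D * x + e ≡ 2 * D * y + e [MOD d]) : x ≡ y [MOD d] := by
  have h1 : 2 * D * x ≡ 2 * D * y [MOD d] := Nat.ModEq.add_right_cancel' e h
  exact Nat.ModEq.cancel_left_of_coprime hd h1

lemma coprime_linear {D e x : ℕ} (he : Nat.Coprime e (2 * D)) :
    Nat.Coprime (2 * D * x + e) (2 * D) := by
  have : Nat.Coprime (e + 2 * D * x) (2 * D) := by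
    rw [Nat.coprime_add_mul_left_left]; exact he
  rwa [add_comm]

/-- The number of `j` in an interval of length `K` for which `2 D j + e` is not cyclic. -/
lemma bad_card {D e a K Y z : ℕ} (he : Nat.Coprime e (2 * D))
    (hz : ∀ p, p.Prime → p ≤ z → p ∣ 2 * D)
    (hY : ∀ j ∈ Finset.Ico a (a + K), 0 < 2 * D * j + e ∧ 2 * D * j + e < Y ^ 2) :
    ((Finset.Ico a (a + K)).filter (fun j => ¬ IsCyc (2 * D * j + e))).card ≤
      ∑ p ∈ (Finset.Ico (z + 1) Y).filter Nat.Prime,
        ((K / p ^ 2 + 1) + ∑ t ∈ Finset.Ioc 0 (Y / (2 * p)), (K / (p * (1 + 2 * p * t)) + 1)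
          + ∑ r ∈ Finset.Ioc 0 (Y / p), (K / (p ^ 2 * r) + 1)) := by
  classical
  set J := Finset.Ico a (a + K) with hJ
  set A : ℕ → Finset ℕ := fun p => J.filter (fun j => p ^ 2 ∣ 2 * D * j + e) with hA
  set B : ℕ → ℕ → Finset ℕ :=
    fun p t => J.filter (fun j => p * (1 + 2 * p * t) ∣ 2 * D * j + e) with hB
  set C : ℕ → ℕ → Finset ℕ :=
    fun p r => J.filter (fun j => 2 * D * j + e ≡ p * r [MOD p ^ 2 * r]) with hC
  set P := (Finset.Ico (z + 1) Y).filter Nat.Prime with hP
  -- covering
  have hcov : J.filter (fun j => ¬ IsCyc (2 * D * j + e)) ⊆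
      P.biUnion (fun p => A p ∪ (Finset.Ioc 0 (Y / (2 * p))).biUnion (B p) ∪
        (Finset.Ioc 0 (Y / p)).biUnion (C p)) := by
    intro j hj
    obtain ⟨hjJ, hnc⟩ := Finset.mem_filter.1 hj
    obtain ⟨hpos, hlt⟩ := hY j hjJ
    set m := 2 * D * j + e with hm
    have hcop : Nat.Coprime m (2 * D) := coprime_linear he
    obtain ⟨p, hp, hpm, hcase⟩ := exists_of_not_isCyc hpos hnc
    have hp2D : ¬ p ∣ 2 * D := fun h => by
      have := Nat.dvd_gcd hpm h
      rw [hcop] at this
      exact hp.one_lt.ne' (Nat.dvd_one.1 this)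
    have hpz : z + 1 ≤ p := by
      by_contra hcon
      exact hp2D (hz p hp (by omega))
    have hp_ne2 : p ≠ 2 := fun h => hp2D (h ▸ dvd_mul_right 2 D)
    rw [Finset.mem_biUnion]
    rcases hcase with hsq | ⟨q, hq, hqm, hpq⟩
    · have hle : p ^ 2 ≤ m := Nat.le_of_dvd hpos hsq
      have hpY : p < Y := lt_of_pow_lt_pow_left₀ 2 (Nat.zero_le _) (lt_of_le_of_lt hle hlt)
      refine ⟨p, Finset.mem_filter.2 ⟨Finset.mem_Ico.2 ⟨hpz, hpY⟩, hp⟩, ?_⟩
      apply Finset.mem_union_left
      apply Finset.mem_union_left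
      exact Finset.mem_filter.2 ⟨hjJ, hsq⟩
    · have hq2D : ¬ q ∣ 2 * D := fun h => by
        have := Nat.dvd_gcd hqm h
        rw [hcop] at this
        exact hq.one_lt.ne' (Nat.dvd_one.1 this)
      have hq_ne2 : q ≠ 2 := fun h => hq2D (h ▸ dvd_mul_right 2 D)
      have hq1 : 0 < q - 1 := by have := hq.two_le; omega
      have hplt : p < q := by
        have := Nat.le_of_dvd hq1 hpq
        omega
      have hcpq : Nat.Coprime p q := (Nat.coprime_primes hp hq).2 hplt.ne
      have hpqm : p * q ∣ m := hcpq.mul_dvd_of_dvd_of_dvd hpm hqm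
      have hpql : p * q ≤ m := Nat.le_of_dvd hpos hpqm
      have hpY : p < Y := by
        by_contra hcon
        push Not at hcon
        have : Y ^ 2 ≤ p * q := by
          rw [pow_two]
          exact Nat.mul_le_mul hcon (le_trans hcon hplt.le)
        omega
      -- q = 1 + 2 p t
      have hodd : 2 ∣ q - 1 := by
        have := hq.eq_two_or_odd
        rcases this with h | h
        · exact absurd h hq_ne2
        · omega
      have hc2p : Nat.Coprime 2 p := (Nat.coprime_primes Nat.prime_two hp).2 (Ne.symm hp_ne2)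
      have h2p : 2 * p ∣ q - 1 := hc2p.mul_dvd_of_dvd_of_dvd hodd hpq
      obtain ⟨t, ht⟩ := h2p
      have hqt : q = 1 + 2 * p * t := by omega
      have htpos : 0 < t := by
        rcases Nat.eq_zero_or_pos t with h | h
        · subst h; omega
        · exact h
      refine ⟨p, Finset.mem_filter.2 ⟨Finset.mem_Ico.2 ⟨hpz, hpY⟩, hp⟩, ?_⟩
      by_cases hqY : q ≤ Y
      · apply Finset.mem_union_left
        apply Finset.mem_union_right
        rw [Finset.mem_biUnion]
        refine ⟨t, Finset.mem_Ioc.2 ⟨htpos, ?_⟩, ?_⟩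
        · rw [Nat.le_div_iff_mul_le (by have := hp.pos; omega)]
          have : t * (2 * p) = 2 * p * t := by ring
          omega
        · refine Finset.mem_filter.2 ⟨hjJ, ?_⟩
          rw [← hqt]; exact hpqm
      · apply Finset.mem_union_right
        rw [Finset.mem_biUnion]
        obtain ⟨r, hr⟩ := hpqm
        have hrpos : 0 < r := by
          rcases Nat.eq_zero_or_pos r with h | h
          · subst h; omega
          · exact h
        refine ⟨r, Finset.mem_Ioc.2 ⟨hrpos, ?_⟩, ?_⟩
        · rw [Nat.le_div_iff_mul_le hp.pos]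
          by_contra hcon
          push Not at hcon hqY
          have h1 : Y * Y ≤ (r * p) * q := Nat.mul_le_mul hcon.le hqY.le
          have h2 : (r * p) * q = p * q * r := by ring
          rw [h2, ← hr, ← pow_two] at h1
          omega
        · refine Finset.mem_filter.2 ⟨hjJ, ?_⟩
          have h3 : 2 * D * j + e = p * r + (p ^ 2 * r) * (2 * t) := by
            rw [← hm, hr, hqt]; ring
          rw [h3]
          simp [Nat.ModEq]
  -- cardinalities
  have hAc : ∀ p, (A p).card ≤ K / p ^ 2 + 1 := by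
    intro p
    apply card_le_of_modEq (a := a) _ (Finset.filter_subset _ _)
    · intro x hx y hy
      have hx' := (Finset.mem_filter.1 hx).2
      have hy' := (Finset.mem_filter.1 hy).2
      have hcop : Nat.Coprime (p ^ 2) (2 * D) :=
        Nat.Coprime.coprime_dvd_left hx' (coprime_linear he)
      apply modEq_of_linear (e := e) hcop
      exact ((Nat.modEq_zero_iff_dvd).2 hx').trans ((Nat.modEq_zero_iff_dvd).2 hy').symm
  have hBc : ∀ p t, (B p t).card ≤ K / (p * (1 + 2 * p * t)) + 1 := by
    intro p t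
    apply card_le_of_modEq (a := a) _ (Finset.filter_subset _ _)
    · intro x hx y hy
      have hx' := (Finset.mem_filter.1 hx).2
      have hy' := (Finset.mem_filter.1 hy).2
      have hcop : Nat.Coprime (p * (1 + 2 * p * t)) (2 * D) :=
        Nat.Coprime.coprime_dvd_left hx' (coprime_linear he)
      apply modEq_of_linear (e := e) hcop
      exact ((Nat.modEq_zero_iff_dvd).2 hx').trans ((Nat.modEq_zero_iff_dvd).2 hy').symm
  have hCc : ∀ p r, (C p r).card ≤ K / (p ^ 2 * r) + 1 := by
    intro p r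
    apply card_le_of_modEq (a := a) _ (Finset.filter_subset _ _)
    · intro x hx y hy
      have hx' := (Finset.mem_filter.1 hx).2
      have hy' := (Finset.mem_filter.1 hy).2
      have hdvd : p * r ∣ 2 * D * x + e := by
        have h1 : p * r ∣ p ^ 2 * r := ⟨p, by ring⟩
        exact ((hx'.of_dvd h1).dvd_iff (dvd_refl _)).2 (dvd_refl _)
      have hc1 : Nat.Coprime (p * r) (2 * D) :=
        Nat.Coprime.coprime_dvd_left hdvd (coprime_linear he)
      have hcp : Nat.Coprime p (2 * D) := Nat.Coprime.coprime_dvd_left (dvd_mul_right p r) hc1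
      have hcop : Nat.Coprime (p ^ 2 * r) (2 * D) := by
        rw [show p ^ 2 * r = p * (p * r) by ring]
        exact Nat.Coprime.mul_left hcp hc1
      apply modEq_of_linear (e := e) hcop
      exact hx'.trans hy'.symm
  calc (J.filter (fun j => ¬ IsCyc (2 * D * j + e))).card
      ≤ (P.biUnion (fun p => A p ∪ (Finset.Ioc 0 (Y / (2 * p))).biUnion (B p) ∪
        (Finset.Ioc 0 (Y / p)).biUnion (C p))).card := Finset.card_le_card hcov
    _ ≤ ∑ p ∈ P, (A p ∪ (Finset.Ioc 0 (Y / (2 * p))).biUnion (B p) ∪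
        (Finset.Ioc 0 (Y / p)).biUnion (C p)).card := Finset.card_biUnion_le
    _ ≤ _ := by
        apply Finset.sum_le_sum
        intro p _
        refine le_trans (Finset.card_union_le _ _) ?_
        refine add_le_add (le_trans (Finset.card_union_le _ _) ?_) ?_
        · refine add_le_add (hAc p) (le_trans Finset.card_biUnion_le ?_)
          exact Finset.sum_le_sum (fun t _ => hBc p t)
        · exact le_trans Finset.card_biUnion_le (Finset.sum_le_sum (fun r _ => hCc p r))

end Pool.Agent.MP_2543de_nt
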