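import Mathlib

namespace Pool.Agent.MP_2543de_nt

open Finset

/-- A positive integer is cyclic if it is coprime to its totient. -/
def IsCyc (m : ℕ) : Prop := 0 < m ∧ Nat.Coprime m (Nat.totient m)

instance : DecidablePred IsCyc := fun m =>
  inferInstanceAs (Decidable (0 < m ∧ Nat.Coprime m (Nat.totient m)))

/-- The increasing enumeration of the cyclic numbers, `cyc 0 = 1`, `cyc 1 = 2`, `cyc 2 = 3`, ... -/
noncomputable def cyc (j : ℕ) : ℕ := Nat.nth IsCyc j

/-- The number of indices `j` such that `cyc j`, `cyc (j+1)` are consecutive cyclic numbers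
strictly between `n^3` and `(n+1)^3` with difference exactly `4`. -/
noncomputable def cousinCount (n : ℕ) : ℕ :=
  Set.ncard {j : ℕ | n ^ 3 < cyc j ∧ cyc (j + 1) < (n + 1) ^ 3 ∧ cyc (j + 1) = cyc j + 4}

lemma isCyc_of_prime {p : ℕ} (hp : p.Prime) : IsCyc p := by
  refine ⟨hp.pos, ?_⟩
  rw [Nat.totient_prime hp]
  have h2 := hp.two_le
  rw [Nat.coprime_comm]
  exact Nat.Coprime.symm ((Nat.Prime.coprime_iff_not_dvd hp).2
    (fun h => by
      have := Nat.le_of_dvd (by omega) h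
      omega))

lemma infinite_isCyc : (Set.ofPred IsCyc).Infinite :=
  Nat.infinite_setOfPred_prime.mono (fun _ hp => isCyc_of_prime hp)

lemma not_isCyc_even {m : ℕ} (h2 : 2 < m) (he : 2 ∣ m) : ¬ IsCyc m := by
  rintro ⟨_, hc⟩
  have h := Nat.totient_even h2
  have : 2 ∣ Nat.gcd m (Nat.totient m) := Nat.dvd_gcd he h.two_dvd
  rw [hc] at this
  omega

lemma not_isCyc_nine {m : ℕ} (h9 : 9 ∣ m) : ¬ IsCyc m := by
  rintro ⟨_, hc⟩
  have h : Nat.totient 9 ∣ Nat.totient m := Nat.totient_dvd_of_dvd h9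
  have h9' : Nat.totient 9 = 6 := by decide
  rw [h9'] at h
  have h3 : 3 ∣ Nat.gcd m (Nat.totient m) :=
    Nat.dvd_gcd (dvd_trans (by norm_num) h9) (dvd_trans (by norm_num) h)
  rw [hc] at h3
  omega

/-- Counting lower bound: distinct pairs give distinct indices. -/
lemma card_le_cousinCount {n : ℕ} (S : Finset ℕ)
    (hS : ∀ m ∈ S, n ^ 3 < m ∧ m + 4 < (n + 1) ^ 3 ∧ IsCyc m ∧ IsCyc (m + 4) ∧
      ¬ IsCyc (m + 1) ∧ ¬ IsCyc (m + 2) ∧ ¬ IsCyc (m + 3)) :
    S.card ≤ cousinCount n := by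
  classical
  set T : Set ℕ := {j : ℕ | n ^ 3 < cyc j ∧ cyc (j + 1) < (n + 1) ^ 3 ∧
    cyc (j + 1) = cyc j + 4} with hT
  have hTfin : T.Finite := by
    apply (Set.finite_lt_nat ((n + 1) ^ 3)).subset
    rintro j ⟨_, h2, h3⟩
    have hmono : StrictMono cyc := Nat.nth_strictMono infinite_isCyc
    have : j ≤ cyc j := hmono.le_apply
    simp only [Set.mem_ofPred_eq]
    omega
  have hmap : ∀ m ∈ S, Nat.count IsCyc m ∈ T := by
    intro m hm
    obtain ⟨h1, h2, h3, h4, h5, h6, h7⟩ := hS m hm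
    have e1 : cyc (Nat.count IsCyc m) = m := Nat.nth_count h3
    have e2 : Nat.count IsCyc (m + 4) = Nat.count IsCyc m + 1 := by
      rw [show m + 4 = m + 3 + 1 by ring, Nat.count_succ, if_neg h7,
        show m + 3 = m + 2 + 1 by ring, Nat.count_succ, if_neg h6,
        show m + 2 = m + 1 + 1 by ring, Nat.count_succ, if_neg h5,
        Nat.count_succ, if_pos h3]
    have e3 : cyc (Nat.count IsCyc m + 1) = m + 4 := by
      rw [← e2]; exact Nat.nth_count h4
    refine ⟨?_, ?_, ?_⟩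
    · rw [e1]; exact h1
    · rw [e3]; exact h2
    · rw [e3, e1]
  have hinj : Set.InjOn (fun m => Nat.count IsCyc m) (S : Set ℕ) := by
    intro a ha b hb hab
    exact Nat.count_injective (hS a ha).2.2.1 (hS b hb).2.2.1 hab
  have hcard : (S.image (fun m => Nat.count IsCyc m)).card = S.card :=
    Finset.card_image_of_injOn hinj
  have hsub : ((S.image (fun m => Nat.count IsCyc m) : Finset ℕ) : Set ℕ) ⊆ T := by
    intro j hj
    simp only [Finset.coe_image, Set.mem_image, Finset.mem_coe] at hj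
    obtain ⟨m, hm, rfl⟩ := hj
    exact hmap m hm
  have h := Set.ncard_le_ncard hsub hTfin
  rw [Set.ncard_coe_finset, hcard] at h
  exact h

/-- If `m` is not cyclic there is a prime `p ∣ m` with `p^2 ∣ m` or a prime `q ∣ m` with
`p ∣ q - 1`. -/
lemma exists_of_not_isCyc {m : ℕ} (hm : 0 < m) (h : ¬ IsCyc m) :
    ∃ p, p.Prime ∧ p ∣ m ∧ (p ^ 2 ∣ m ∨ ∃ q, q.Prime ∧ q ∣ m ∧ p ∣ q - 1) := by
  have hc : ¬ Nat.Coprime m (Nat.totient m) := fun hc => h ⟨hm, hc⟩
  obtain ⟨p, hp, hpm, hpt⟩ := Nat.Prime.not_coprime_iff_dvd.1 hc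
  refine ⟨p, hp, hpm, ?_⟩
  rw [Nat.totient_eq_div_primeFactors_mul] at hpt
  rcases hp.dvd_mul.1 hpt with h1 | h1
  · left
    have hdiv : ∏ q ∈ m.primeFactors, q ∣ m := Nat.prod_primeFactors_dvd m
    have hp' : p ∣ ∏ q ∈ m.primeFactors, q :=
      Finset.dvd_prod_of_mem _ (Nat.mem_primeFactors.2 ⟨hp, hpm, hm.ne'⟩)
    have : m = (m / ∏ q ∈ m.primeFactors, q) * ∏ q ∈ m.primeFactors, q :=
      (Nat.div_mul_cancel hdiv).symm
    rw [this, pow_two]
    exact mul_dvd_mul h1 hp'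
  · right
    obtain ⟨q, hq, hpq⟩ := (Prime.dvd_finsetProd_iff hp.prime _).1 h1
    have hq' := Nat.mem_primeFactors.1 hq
    exact ⟨q, hq'.1, hq'.2.1, hpq⟩

/-- A set of naturals in an interval of length `K`, pairwise congruent mod `d`, has at most
`K / d + 1` elements. -/
lemma card_le_of_modEq {a K d : ℕ} (S : Finset ℕ) (hS : S ⊆ Finset.Ico a (a + K))
    (h : ∀ x ∈ S, ∀ y ∈ S, x ≡ y [MOD d]) : S.card ≤ K / d + 1 := by
  classical
  have h1 : S.card ≤ (Finset.range (K / d + 1)).card := by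
    apply Finset.card_le_card_of_injOn (fun x => (x - a) / d)
    · intro x hx
      have hx' := Finset.mem_Ico.1 (hS hx)
      simp only [Finset.coe_range, Set.mem_Iio]
      have : (x - a) / d ≤ K / d := Nat.div_le_div_right (by omega)
      omega
    · intro x hx y hy hxy
      have hx' := Finset.mem_Ico.1 (hS hx)
      have hy' := Finset.mem_Ico.1 (hS hy)
      simp only at hxy
      have hmod : (x - a) % d = (y - a) % d := by
        have h2 : (x - a) + a ≡ (y - a) + a [MOD d] := by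
          rw [Nat.sub_add_cancel hx'.1, Nat.sub_add_cancel hy'.1]
          exact h x hx y hy
        exact Nat.ModEq.add_right_cancel' a h2
      have e1 := Nat.div_add_mod (x - a) d
      have e2 := Nat.div_add_mod (y - a) d
      rw [hxy, hmod] at e1
      omega
  simpa using h1

end Pool.Agent.MP_2543de_nt
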