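import Pool.Agent.Lib.MP_2543de_nt.Sums

namespace Pool.Agent.MP_2543de_nt

open Finset

/-- The modulus: nine times the product of the primes in `[5, z]`. -/
def Dz (z : ℕ) : ℕ := 9 * ∏ p ∈ (Finset.Ico 5 (z + 1)).filter Nat.Prime, p

lemma Dz_pos (z : ℕ) : 9 ≤ Dz z := by
  unfold Dz
  have : 0 < ∏ p ∈ (Finset.Ico 5 (z + 1)).filter Nat.Prime, p :=
    Finset.prod_pos (fun p hp => (Finset.mem_filter.1 hp).2.pos)
  omega

lemma Dz_odd (z : ℕ) : Odd (Dz z) := by
  unfold Dz
  apply Odd.mul (by decide)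
  apply Finset.prod_induction _ Odd (fun _ _ => Odd.mul) odd_one
  intro p hp
  obtain ⟨h1, h2⟩ := Finset.mem_filter.1 hp
  have h3 := Finset.mem_Ico.1 h1
  exact h2.odd_of_ne_two (by omega)

lemma nine_dvd_Dz (z : ℕ) : 9 ∣ Dz z := dvd_mul_right _ _

lemma prime_dvd_Dz (z : ℕ) : ∀ p, p.Prime → p ≤ z → p ∣ 2 * Dz z := by
  intro p hp hpz
  by_cases h5 : 5 ≤ p
  · have : p ∣ ∏ p ∈ (Finset.Ico 5 (z + 1)).filter Nat.Prime, p :=
      Finset.dvd_prod_of_mem (fun x => x)
        (Finset.mem_filter.2 ⟨Finset.mem_Ico.2 ⟨h5, by omega⟩, hp⟩)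
    exact dvd_mul_of_dvd_right (dvd_mul_of_dvd_right this _) _
  · have h2 := hp.two_le
    have h6 : (6 : ℕ) ∣ 2 * Dz z := by
      obtain ⟨k, hk⟩ := nine_dvd_Dz z
      exact ⟨3 * k, by rw [hk]; ring⟩
    have : p = 2 ∨ p = 3 ∨ p = 4 := by omega
    rcases this with rfl | rfl | rfl
    · exact dvd_trans (by norm_num) h6
    · exact dvd_trans (by norm_num) h6
    · exact absurd hp (by decide)

lemma Dz_le (z : ℕ) : Dz z ≤ 9 * 4 ^ z := by
  unfold Dz
  apply Nat.mul_le_mul_left
  refine le_trans ?_ (primorial_le_four_pow z)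
  unfold primorial
  apply Finset.prod_le_prod_of_subset_of_one_le'
  · intro p hp
    obtain ⟨h1, h2⟩ := Finset.mem_filter.1 hp
    have h3 := Finset.mem_Ico.1 h1
    exact Finset.mem_filter.2 ⟨Finset.mem_range.2 h3.2, h2⟩
  · intro p hp _
    exact (Finset.mem_filter.1 hp).2.one_le

/-- The explicit lower bound for the number of cousin pairs. -/
lemma lower (n z Y : ℕ) (hY1 : 1 ≤ Y) (hY : (n + 1) ^ 3 ≤ Y ^ 2) :
    (((3 * n ^ 2 + 3 * n - Dz z - 2) / (2 * Dz z) : ℕ) : ℝ) -
      2 * ((5 / 2 + 3 / 2 * Real.log Y) *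
        ((((3 * n ^ 2 + 3 * n - Dz z - 2) / (2 * Dz z) : ℕ) : ℝ) * S z Y + Y)) ≤
      cousinCount n := by
  set D := Dz z with hD
  set K := (3 * n ^ 2 + 3 * n - D - 2) / (2 * D) with hK
  set a := n ^ 3 / (2 * D) + 1 with ha
  have hD9 : 9 ≤ D := Dz_pos z
  have hodd : Odd D := Dz_odd z
  have h2D : 0 < 2 * D := by omega
  have hcD : Nat.Coprime 2 D := (Nat.coprime_two_left).2 hodd
  have he1 : Nat.Coprime (D - 2) (2 * D) := by
    apply Nat.Coprime.mul_right
    · rw [Nat.coprime_two_right]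
      rw [Nat.odd_sub (by omega)]
      constructor
      · intro _; exact even_two
      · intro _; exact hodd
    · have h1 : Nat.Coprime (D - 2) ((D - 2) + 2) := by
        rw [Nat.coprime_self_add_right, Nat.coprime_two_right, Nat.odd_sub (by omega)]
        constructor
        · intro _; exact even_two
        · intro _; exact hodd
      rwa [Nat.sub_add_cancel (by omega : 2 ≤ D)] at h1
  have he2 : Nat.Coprime (D + 2) (2 * D) := by
    apply Nat.Coprime.mul_right
    · rw [Nat.coprime_two_right]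
      exact hodd.add_even even_two
    · rw [Nat.coprime_self_add_left]
      exact hcD
  have hrange : ∀ j ∈ Finset.Ico a (a + K), n ^ 3 < 2 * D * j + (D - 2) ∧
      2 * D * j + (D + 2) < (n + 1) ^ 3 := by
    intro j hj
    obtain ⟨hj1, hj2⟩ := Finset.mem_Ico.1 hj
    have hK1 : 1 ≤ K := by omega
    have e1 : 2 * D * (n ^ 3 / (2 * D)) ≤ n ^ 3 := Nat.mul_div_le _ _
    have e2 : n ^ 3 < 2 * D * a := by
      rw [ha]
      exact Nat.lt_mul_div_succ _ h2D
    have e3 : 2 * D * K ≤ 3 * n ^ 2 + 3 * n - D - 2 := Nat.mul_div_le _ _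
    have e4 : 2 * D * a ≤ 2 * D * j := Nat.mul_le_mul_left _ hj1
    have e5 : 2 * D * j ≤ 2 * D * (n ^ 3 / (2 * D)) + 2 * D * K := by
      rw [← Nat.mul_add]
      apply Nat.mul_le_mul_left
      omega
    have e6 : 1 * (2 * D) ≤ K * (2 * D) := Nat.mul_le_mul_right _ hK1
    have e7 : (n + 1) ^ 3 = n ^ 3 + 3 * n ^ 2 + 3 * n + 1 := by ring
    have e8 : K * (2 * D) = 2 * D * K := mul_comm _ _
    constructor
    · omega
    · rw [e7]
      omega
  have hb1 := bad_card_real (D := D) (e := D - 2) (a := a) (K := K) (Y := Y) (z := z) he1 hY1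
    (prime_dvd_Dz z) (by
      intro j hj
      obtain ⟨h1, h2⟩ := hrange j hj
      exact ⟨by omega, by omega⟩)
  have hb2 := bad_card_real (D := D) (e := D + 2) (a := a) (K := K) (Y := Y) (z := z) he2 hY1
    (prime_dvd_Dz z) (by
      intro j hj
      obtain ⟨h1, h2⟩ := hrange j hj
      exact ⟨by omega, by omega⟩)
  set J := Finset.Ico a (a + K) with hJ
  set B1 := J.filter (fun j => ¬ IsCyc (2 * D * j + (D - 2))) with hB1
  set B2 := J.filter (fun j => ¬ IsCyc (2 * D * j + (D + 2))) with hB2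
  set G := J.filter (fun j => IsCyc (2 * D * j + (D - 2)) ∧ IsCyc (2 * D * j + (D + 2))) with hG
  have hcover : J ⊆ G ∪ (B1 ∪ B2) := by
    intro j hj
    by_cases h1 : IsCyc (2 * D * j + (D - 2))
    · by_cases h2 : IsCyc (2 * D * j + (D + 2))
      · exact Finset.mem_union_left _ (Finset.mem_filter.2 ⟨hj, h1, h2⟩)
      · exact Finset.mem_union_right _ (Finset.mem_union_right _ (Finset.mem_filter.2 ⟨hj, h2⟩))
    · exact Finset.mem_union_right _ (Finset.mem_union_left _ (Finset.mem_filter.2 ⟨hj, h1⟩))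
  have hJc : J.card = K := by simp [hJ]
  have hcount : K ≤ G.card + (B1.card + B2.card) := by
    calc K = J.card := hJc.symm
      _ ≤ (G ∪ (B1 ∪ B2)).card := Finset.card_le_card hcover
      _ ≤ G.card + (B1 ∪ B2).card := Finset.card_union_le _ _
      _ ≤ G.card + (B1.card + B2.card) := Nat.add_le_add_left (Finset.card_union_le _ _) _
  have hGC : G.card ≤ cousinCount n := by
    have hinj : Set.InjOn (fun j => 2 * D * j + (D - 2)) (G : Set ℕ) := by
      intro x _ y _ hxy
      simp only at hxy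
      have : 2 * D * x = 2 * D * y := by omega
      exact Nat.eq_of_mul_eq_mul_left h2D this
    rw [← Finset.card_image_of_injOn hinj]
    apply card_le_cousinCount
    intro m hm
    obtain ⟨j, hj, rfl⟩ := Finset.mem_image.1 hm
    obtain ⟨hjJ, hc1, hc2⟩ := Finset.mem_filter.1 hj
    obtain ⟨h1, h2⟩ := hrange j hjJ
    obtain ⟨k, hk⟩ := hodd
    have hDj : 2 * D * j = 2 * (D * j) := by ring
    refine ⟨h1, by omega, hc1, ?_, ?_, ?_, ?_⟩
    · have : 2 * D * j + (D - 2) + 4 = 2 * D * j + (D + 2) := by omega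
      rw [this]; exact hc2
    · apply not_isCyc_even (by omega)
      omega
    · apply not_isCyc_nine
      have : 2 * D * j + (D - 2) + 2 = D * (2 * j + 1) := by
        have : D * (2 * j + 1) = 2 * D * j + D := by ring
        omega
      rw [this]
      exact dvd_mul_of_dvd_left (nine_dvd_Dz z) _
    · apply not_isCyc_even (by omega)
      omega
  have hcount' : (K : ℝ) ≤ G.card + (B1.card + B2.card) := by exact_mod_cast hcount
  have hGC' : (G.card : ℝ) ≤ cousinCount n := by exact_mod_cast hGC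
  linarith

end Pool.Agent.MP_2543de_nt
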