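import Pool.Agent.Lib.MP_2543de_nt.Bad

namespace Pool.Agent.MP_2543de_nt

open Finset

/-- Sum of `1/p^2` over primes in `(z, Y)`. -/
noncomputable def S (z Y : ℕ) : ℝ :=
  ∑ p ∈ (Finset.Ico (z + 1) Y).filter Nat.Prime, (1 : ℝ) / (p : ℝ) ^ 2

lemma S_mono {z Y Y' : ℕ} (h : Y ≤ Y') : S z Y ≤ S z Y' := by
  unfold S
  apply Finset.sum_le_sum_of_subset_of_nonneg
  · apply Finset.filter_subset_filter
    exact Finset.Ico_subset_Ico_right h
  · intros; positivity

lemma S_nonneg (z Y : ℕ) : 0 ≤ S z Y := by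
  unfold S; exact Finset.sum_nonneg (fun _ _ => by positivity)

lemma S_dyadic {x : ℕ} (hx : 2 ≤ x) : S x (2 * x + 1) ≤ 2 * Real.log 4 / (x * Real.log x) := by
  have hx0 : (0 : ℝ) < x := by positivity
  have hlog : 0 < Real.log x := Real.log_pos (by exact_mod_cast hx)
  have h1 : S x (2 * x + 1) ≤
      ∑ p ∈ (Finset.Ico (x + 1) (2 * x + 1)).filter Nat.Prime,
        (1 / ((x : ℝ) ^ 2 * Real.log x)) * Real.log p := by
    unfold S
    apply Finset.sum_le_sum
    intro p hp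
    obtain ⟨hp1, hp2⟩ := Finset.mem_filter.1 hp
    have hp3 := Finset.mem_Ico.1 hp1
    have hxp : (x : ℝ) ≤ p := by exact_mod_cast (by omega : x ≤ p)
    have hp0 : (0 : ℝ) < p := lt_of_lt_of_le hx0 hxp
    have hl : Real.log x ≤ Real.log p := Real.log_le_log hx0 hxp
    rw [div_mul_eq_mul_div, one_mul, div_le_div_iff₀ (by positivity) (by positivity), one_mul]
    calc (x : ℝ) ^ 2 * Real.log x ≤ (p : ℝ) ^ 2 * Real.log p := by gcongr
      _ = Real.log p * (p : ℝ) ^ 2 := by ring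
  have h2 : ∑ p ∈ (Finset.Ico (x + 1) (2 * x + 1)).filter Nat.Prime, Real.log p ≤
      Real.log 4 * (2 * x) := by
    have h3 : ∑ p ∈ (Finset.Ico (x + 1) (2 * x + 1)).filter Nat.Prime, Real.log p ≤
        Chebyshev.theta (((2 * x : ℕ)) : ℝ) := by
      unfold Chebyshev.theta
      rw [Nat.floor_natCast]
      apply Finset.sum_le_sum_of_subset_of_nonneg
      · intro p hp
        obtain ⟨hp1, hp2⟩ := Finset.mem_filter.1 hp
        have hp3 := Finset.mem_Ico.1 hp1
        exact Finset.mem_filter.2 ⟨Finset.mem_Ioc.2 ⟨by omega, by omega⟩, hp2⟩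
      · intro p hp _
        exact Real.log_nonneg (by exact_mod_cast (Finset.mem_filter.1 hp).2.one_le)
    refine h3.trans ?_
    have := Chebyshev.theta_le_log4_mul_x (x := ((2 * x : ℕ) : ℝ)) (by positivity)
    push_cast at this ⊢
    exact this
  refine h1.trans ?_
  rw [← Finset.mul_sum]
  calc 1 / ((x : ℝ) ^ 2 * Real.log x) *
        ∑ p ∈ (Finset.Ico (x + 1) (2 * x + 1)).filter Nat.Prime, Real.log p
      ≤ 1 / ((x : ℝ) ^ 2 * Real.log x) * (Real.log 4 * (2 * x)) := by gcongr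
    _ = 2 * Real.log 4 / (x * Real.log x) := by
        field_simp

lemma S_split {a b c : ℕ} (hab : a ≤ b) (hbc : b ≤ c) :
    S a (c + 1) = S a (b + 1) + S b (c + 1) := by
  unfold S
  rw [← Finset.sum_union]
  · congr 1
    rw [← Finset.filter_union, Finset.Ico_union_Ico_eq_Ico (by omega) (by omega)]
  · rw [Finset.disjoint_left]
    intro x hx hy
    have h1 := Finset.mem_Ico.1 (Finset.mem_filter.1 hx).1
    have h2 := Finset.mem_Ico.1 (Finset.mem_filter.1 hy).1
    omega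

lemma S_pow {z : ℕ} (hz : 2 ≤ z) (k : ℕ) :
    S z (2 ^ k * z + 1) ≤ 4 * Real.log 4 / (z * Real.log z) * (1 - (1 / 2) ^ k) := by
  have hz0 : (0 : ℝ) < z := by positivity
  have hlog : 0 < Real.log z := Real.log_pos (by exact_mod_cast hz)
  induction k with
  | zero => simp [S]
  | succ k ih =>
    have hk : 1 ≤ 2 ^ k := Nat.one_le_two_pow
    have h1 : z ≤ 2 ^ k * z := Nat.le_mul_of_pos_left z hk
    have h2 : 2 ^ (k + 1) * z = 2 * (2 ^ k * z) := by ring
    rw [h2, S_split h1 (by omega)]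
    have h3 := S_dyadic (x := 2 ^ k * z) (by omega)
    have h4 : 2 * Real.log 4 / (((2 ^ k * z : ℕ) : ℝ) * Real.log ((2 ^ k * z : ℕ) : ℝ)) ≤
        4 * Real.log 4 / (z * Real.log z) * (1 / 2) ^ (k + 1) := by
      have hl4 : 0 < Real.log 4 := Real.log_pos (by norm_num)
      have hle : Real.log z ≤ Real.log ((2 ^ k * z : ℕ) : ℝ) :=
        Real.log_le_log hz0 (by exact_mod_cast h1)
      have e : 4 * Real.log 4 / (z * Real.log z) * (1 / 2) ^ (k + 1) =
          2 * Real.log 4 / (((2 ^ k * z : ℕ) : ℝ) * Real.log z) := by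
        push_cast
        rw [pow_succ, one_div, inv_pow]
        field_simp
        ring
      rw [e]
      have : (0 : ℝ) < ((2 ^ k * z : ℕ) : ℝ) := by exact_mod_cast (by omega)
      gcongr
    calc S z (2 ^ k * z + 1) + S (2 ^ k * z) (2 * (2 ^ k * z) + 1)
        ≤ 4 * Real.log 4 / (z * Real.log z) * (1 - (1 / 2) ^ k) +
          4 * Real.log 4 / (z * Real.log z) * (1 / 2) ^ (k + 1) :=
          add_le_add ih (h3.trans h4)
      _ = 4 * Real.log 4 / (z * Real.log z) * (1 - (1 / 2) ^ (k + 1)) := by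
          rw [pow_succ]; ring

lemma S_le {z : ℕ} (hz : 2 ≤ z) (Y : ℕ) : S z Y ≤ 4 * Real.log 4 / (z * Real.log z) := by
  have hz0 : (0 : ℝ) < z := by positivity
  have hlog : 0 < Real.log z := Real.log_pos (by exact_mod_cast hz)
  have hl4 : 0 < Real.log 4 := Real.log_pos (by norm_num)
  have h1 : Y ≤ 2 ^ Y * z + 1 := by
    have := Nat.lt_two_pow_self (n := Y)
    nlinarith
  refine (S_mono h1).trans ((S_pow hz Y).trans ?_)
  have h2 : (0 : ℝ) ≤ (1 / 2) ^ Y := by positivity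
  have h3 : 0 ≤ 4 * Real.log 4 / (z * Real.log z) := by positivity
  nlinarith

lemma harm (T Y : ℕ) (hT : T ≤ Y) :
    ∑ t ∈ Finset.Ioc 0 T, (1 : ℝ) / t ≤ 1 + Real.log Y := by
  have h1 : ∑ t ∈ Finset.Ioc 0 T, (1 : ℝ) / t ≤ ∑ t ∈ Finset.Icc 1 Y, (1 : ℝ) / t := by
    apply Finset.sum_le_sum_of_subset_of_nonneg
    · intro t ht
      have := Finset.mem_Ioc.1 ht
      exact Finset.mem_Icc.2 ⟨by omega, by omega⟩
    · intros; positivity
  have h2 := harmonic_le_one_add_log Y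
  rw [harmonic_eq_sum_Icc] at h2
  push_cast at h2
  refine h1.trans (le_trans (le_of_eq ?_) h2)
  apply Finset.sum_congr rfl
  intros; rw [one_div]

lemma natdiv_le (K d : ℕ) : ((K / d : ℕ) : ℝ) ≤ K * (1 / (d : ℝ)) := by
  rw [mul_one_div]; exact Nat.cast_div_le

/-- Real upper bound for the bad count. -/
lemma bad_card_real {D e a K Y z : ℕ} (he : Nat.Coprime e (2 * D)) (hY1 : 1 ≤ Y)
    (hz : ∀ p, p.Prime → p ≤ z → p ∣ 2 * D)
    (hY : ∀ j ∈ Finset.Ico a (a + K), 0 < 2 * D * j + e ∧ 2 * D * j + e < Y ^ 2) :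
    (((Finset.Ico a (a + K)).filter (fun j => ¬ IsCyc (2 * D * j + e))).card : ℝ) ≤
      (5 / 2 + 3 / 2 * Real.log Y) * (K * S z Y + Y) := by
  have hYr : (1 : ℝ) ≤ Y := by exact_mod_cast hY1
  have hL : 0 ≤ Real.log Y := Real.log_nonneg hYr
  set L := 1 + Real.log Y with hLdef
  have hL1 : 1 ≤ L := by linarith
  have h0 := bad_card he hz hY
  have h1 : (((Finset.Ico a (a + K)).filter (fun j => ¬ IsCyc (2 * D * j + e))).card : ℝ) ≤
      ∑ p ∈ (Finset.Ico (z + 1) Y).filter Nat.Prime,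
        ((((K / p ^ 2 : ℕ) : ℝ) + 1) +
          ∑ t ∈ Finset.Ioc 0 (Y / (2 * p)), (((K / (p * (1 + 2 * p * t)) : ℕ) : ℝ) + 1)
          + ∑ r ∈ Finset.Ioc 0 (Y / p), (((K / (p ^ 2 * r) : ℕ) : ℝ) + 1)) := by
    exact_mod_cast h0
  refine h1.trans ?_
  have h2 : ∀ p ∈ (Finset.Ico (z + 1) Y).filter Nat.Prime,
      ((((K / p ^ 2 : ℕ) : ℝ) + 1) +
          ∑ t ∈ Finset.Ioc 0 (Y / (2 * p)), (((K / (p * (1 + 2 * p * t)) : ℕ) : ℝ) + 1)
          + ∑ r ∈ Finset.Ioc 0 (Y / p), (((K / (p ^ 2 * r) : ℕ) : ℝ) + 1)) ≤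
      (K * (1 / (p : ℝ) ^ 2)) * (1 + 3 / 2 * L) + (1 + 3 / 2 * Y * (1 / (p : ℝ))) := by
    intro p hp
    obtain ⟨hp1, hpp⟩ := Finset.mem_filter.1 hp
    have hp3 := Finset.mem_Ico.1 hp1
    have hp0 : (0 : ℝ) < p := by exact_mod_cast hpp.pos
    have a1 : ((K / p ^ 2 : ℕ) : ℝ) ≤ K * (1 / (p : ℝ) ^ 2) := by
      have := natdiv_le K (p ^ 2); push_cast at this; exact this
    have a2 : ∑ t ∈ Finset.Ioc 0 (Y / (2 * p)), (((K / (p * (1 + 2 * p * t)) : ℕ) : ℝ) + 1) ≤
        (K * (1 / (p : ℝ) ^ 2)) * (1 / 2 * L) + 1 / 2 * Y * (1 / (p : ℝ)) := by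
      rw [Finset.sum_add_distrib]
      apply add_le_add
      · calc ∑ t ∈ Finset.Ioc 0 (Y / (2 * p)), ((K / (p * (1 + 2 * p * t)) : ℕ) : ℝ)
            ≤ ∑ t ∈ Finset.Ioc 0 (Y / (2 * p)),
                (K * (1 / (p : ℝ) ^ 2)) * (1 / 2) * ((1 : ℝ) / t) := by
              apply Finset.sum_le_sum
              intro t ht
              have ht' := Finset.mem_Ioc.1 ht
              have ht0 : (0 : ℝ) < t := by exact_mod_cast ht'.1
              refine (natdiv_le K _).trans ?_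
              push_cast
              have e : (K : ℝ) * (1 / (p : ℝ) ^ 2) * (1 / 2) * (1 / (t : ℝ)) =
                  K * (1 / (2 * (p : ℝ) ^ 2 * t)) := by
                field_simp
              rw [e]
              apply mul_le_mul_of_nonneg_left _ (Nat.cast_nonneg K)
              apply one_div_le_one_div_of_le (by positivity)
              nlinarith
          _ = (K * (1 / (p : ℝ) ^ 2)) * (1 / 2) * ∑ t ∈ Finset.Ioc 0 (Y / (2 * p)), (1 : ℝ) / t := by
              rw [Finset.mul_sum]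
          _ ≤ (K * (1 / (p : ℝ) ^ 2)) * (1 / 2) * L := by
              apply mul_le_mul_of_nonneg_left _ (by positivity)
              exact harm _ _ (Nat.div_le_self _ _)
          _ = _ := by ring
      · rw [Finset.sum_const, nsmul_eq_mul, mul_one, Nat.card_Ioc, Nat.sub_zero]
        refine (natdiv_le Y (2 * p)).trans (le_of_eq ?_)
        push_cast
        field_simp
    have a3 : ∑ r ∈ Finset.Ioc 0 (Y / p), (((K / (p ^ 2 * r) : ℕ) : ℝ) + 1) ≤
        (K * (1 / (p : ℝ) ^ 2)) * L + Y * (1 / (p : ℝ)) := by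
      rw [Finset.sum_add_distrib]
      apply add_le_add
      · calc ∑ r ∈ Finset.Ioc 0 (Y / p), ((K / (p ^ 2 * r) : ℕ) : ℝ)
            ≤ ∑ r ∈ Finset.Ioc 0 (Y / p), (K * (1 / (p : ℝ) ^ 2)) * ((1 : ℝ) / r) := by
              apply Finset.sum_le_sum
              intro r hr
              have hr' := Finset.mem_Ioc.1 hr
              have hr0 : (0 : ℝ) < r := by exact_mod_cast hr'.1
              refine (natdiv_le K _).trans (le_of_eq ?_)
              push_cast
              field_simp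
          _ = (K * (1 / (p : ℝ) ^ 2)) * ∑ r ∈ Finset.Ioc 0 (Y / p), (1 : ℝ) / r := by
              rw [Finset.mul_sum]
          _ ≤ (K * (1 / (p : ℝ) ^ 2)) * L := by
              apply mul_le_mul_of_nonneg_left _ (by positivity)
              exact harm _ _ (Nat.div_le_self _ _)
      · rw [Finset.sum_const, nsmul_eq_mul, mul_one, Nat.card_Ioc, Nat.sub_zero]
        exact natdiv_le Y p
    calc _ ≤ ((K * (1 / (p : ℝ) ^ 2)) + 1) +
          ((K * (1 / (p : ℝ) ^ 2)) * (1 / 2 * L) + 1 / 2 * Y * (1 / (p : ℝ))) +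
          ((K * (1 / (p : ℝ) ^ 2)) * L + Y * (1 / (p : ℝ))) := by
            gcongr
      _ = _ := by ring
  refine (Finset.sum_le_sum h2).trans ?_
  rw [Finset.sum_add_distrib, ← Finset.sum_mul, ← Finset.mul_sum, Finset.sum_add_distrib,
    ← Finset.mul_sum]
  have b1 : ∑ p ∈ (Finset.Ico (z + 1) Y).filter Nat.Prime, (1 : ℝ) / (p : ℝ) ^ 2 = S z Y := rfl
  have b2 : ∑ p ∈ (Finset.Ico (z + 1) Y).filter Nat.Prime, (1 : ℝ) ≤ Y := by
    rw [Finset.sum_const, nsmul_eq_mul, mul_one]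
    have : ((Finset.Ico (z + 1) Y).filter Nat.Prime).card ≤ Y :=
      (Finset.card_filter_le _ _).trans (by rw [Nat.card_Ico]; omega)
    exact_mod_cast this
  have b3 : ∑ p ∈ (Finset.Ico (z + 1) Y).filter Nat.Prime, (1 : ℝ) / (p : ℝ) ≤ L := by
    refine le_trans ?_ (harm Y Y le_rfl)
    apply Finset.sum_le_sum_of_subset_of_nonneg
    · intro p hp
      have h := Finset.mem_Ico.1 (Finset.mem_filter.1 hp).1
      exact Finset.mem_Ioc.2 ⟨by omega, by omega⟩
    · intros; positivity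
  rw [b1]
  have hS := S_nonneg z Y
  have hK : (0 : ℝ) ≤ K := Nat.cast_nonneg K
  calc K * S z Y * (1 + 3 / 2 * L) +
        (∑ p ∈ (Finset.Ico (z + 1) Y).filter Nat.Prime, (1 : ℝ) +
        3 / 2 * Y * ∑ p ∈ (Finset.Ico (z + 1) Y).filter Nat.Prime, (1 : ℝ) / (p : ℝ))
      ≤ K * S z Y * (1 + 3 / 2 * L) + (Y + 3 / 2 * Y * L) := by gcongr
    _ = (5 / 2 + 3 / 2 * Real.log Y) * (K * S z Y + Y) := by rw [hLdef]; ring

end Pool.Agent.MP_2543de_nt
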